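import Pool.Agent.H32.RK.TargetsA
import Pool.Agent.H47.RQ.PFX
import Pool.Agent.H68.RQ.FIB

/-!
# (PFX) the number of the pairs which are bad at a given vector, over a finite ring
-/

set_option autoImplicit false

open Finset NumberField Pool.Agent.H32.RQ Pool.Agent.H32.RK Pool.Agent.H47.RQ

namespace Pool.Agent.H99.RK

theorem pf_PFX : Pool.Agent.H32.RK.T_PFX := by
  classical
  intro R _ _ s M i₀ x hs hx hM
  haveI : Fintype R := Fintype.ofFinite R
  obtain ⟨n, rfl⟩ : ∃ n, s = n + 1 := ⟨s - 1, by omega⟩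
  have hM' : Nat.card {q : (Fin n → R) × (Fin n → R) //
      ∀ j l, q.1 j * q.2 l = q.1 l * q.2 j} ≤ M := hM
  rw [Nat.card_eq_fintype_card, Fintype.card_subtype] at hM'
  obtain ⟨P, hP⟩ : ∃ P : Finset (Mon (n + 1)), P = univ.image (mo i₀) := ⟨_, rfl⟩
  have hPc : P.card = n + 1 := by
    rw [hP, Finset.card_image_of_injective _ (mo_inj i₀), Finset.card_univ, Fintype.card_fin]
  obtain ⟨E, hE⟩ : ∃ E : Finset (Fin 2 → Mon (n + 1) → R),
      E = Finset.univ.filter fun F : Fin 2 → Mon (n + 1) → R =>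
      (∀ i, qf (F i) x = 0) ∧ ∀ j l, jm F x j l = 0 := ⟨_, rfl⟩
  have hmem : ∀ e ∈ E, (∀ i, qf (e i) x = 0) ∧ ∀ j l, jm e x j l = 0 := by
    intro e he
    rw [hE, Finset.mem_filter] at he
    exact he.2
  rw [Nat.card_eq_fintype_card, Fintype.card_subtype, ← hE]
  have hfib := Pool.Agent.H68.RQ.pf_FIB R (n + 1) M univ P E
    (fun c _ i q => Finset.mem_univ _) ?_
  · rw [hPc, Finset.card_univ] at hfib
    rw [Nat.card_eq_fintype_card]
    exact hfib
  · intro c
    refine (Finset.card_le_card_of_injOn (fun e : Fin 2 → Mon (n + 1) → R =>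
      ((fun k : Fin n => dq (e 0) x (i₀.succAbove k)),
        (fun k : Fin n => dq (e 1) x (i₀.succAbove k)))) ?_ ?_).trans hM'
    · intro e he
      have he' := hmem e (Finset.mem_filter.1 he).1
      refine Finset.mem_filter.2 ⟨Finset.mem_univ _, fun j l => ?_⟩
      have := he'.2 (i₀.succAbove j) (i₀.succAbove l)
      unfold jm at this
      exact sub_eq_zero.1 this
    · intro e he e' he' hee
      have h1 := Finset.mem_filter.1 he
      have h2 := Finset.mem_filter.1 he'
      have h3 := hmem e h1.1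
      have h4 := hmem e' h2.1
      have hd0 : ∀ k, dq (e 0) x (i₀.succAbove k) = dq (e' 0) x (i₀.succAbove k) := fun k =>
        congrFun (congrArg Prod.fst hee) k
      have hd1 : ∀ k, dq (e 1) x (i₀.succAbove k) = dq (e' 1) x (i₀.succAbove k) := fun k =>
        congrFun (congrArg Prod.snd hee) k
      have hne : ∀ j, j ≠ i₀ → ∃ k, i₀.succAbove k = j := fun j hj =>
        Fin.exists_succAbove_eq hj
      have hall : ∀ i : Fin 2, ∀ j, j ≠ i₀ → dq (e i) x j = dq (e' i) x j := by
        intro i j hj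
        obtain ⟨k, rfl⟩ := hne j hj
        fin_cases i
        · exact hd0 k
        · exact hd1 k
      funext i
      refine eq_of i₀ (e i) (e' i) x hx (fun q hq => ?_) (hall i) ((h3.1 i).trans (h4.1 i).symm)
      rw [h1.2 i q (by rw [hP]; exact hq), h2.2 i q (by rw [hP]; exact hq)]

end Pool.Agent.H99.RK
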