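import Pool.Agent.H32.RK.TargetsA
import Pool.Agent.H49.RQ.FJB

/-!
# (TRF) from the random model to the box, over a number field
-/

set_option autoImplicit false

open Finset NumberField Pool.Agent.H32.RQ Pool.Agent.H32.RK

namespace Pool.Agent.H99.RK

section

variable {K : Type} [Field K] [NumberField K] {ι : Type} [Fintype ι] [DecidableEq ι]

private theorem coef_le {s A : ℕ} {c : Fin 2 → Mon s → ι → ℤ} (hc : c ∈ Pool.Agent.H32.RK.bx ι s A)
    (i : Fin 2) (p : Mon s) (l : ι) : |c i p l| ≤ (A : ℤ) := by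
  have h := Fintype.mem_piFinset.1 (Fintype.mem_piFinset.1 (Fintype.mem_piFinset.1 hc i) p) l
  rw [Finset.mem_Icc] at h
  exact abs_le.2 h

private theorem el_mul_repr (ω : Module.Basis ι ℤ (𝓞 K)) (v : ι → ℤ) (a : 𝓞 K) (m : ι) :
    ω.repr (el ω v * a) m = ∑ l, v l * ω.repr (a * ω l) m := by
  have h : el ω v * a = ∑ l, v l • (a * ω l) := by
    unfold el
    rw [Finset.sum_mul]
    refine Finset.sum_congr rfl fun l _ => ?_
    rw [smul_mul_assoc, mul_comm (ω l) a]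
  rw [h, map_sum, Finsupp.finsetSum_apply]
  refine Finset.sum_congr rfl fun l _ => ?_
  rw [map_zsmul, Finsupp.smul_apply, smul_eq_mul]

private theorem qc_cast {s : ℕ} (ω : Module.Basis ι ℤ (𝓞 K)) (Q : ℕ) [NeZero Q]
    (c : Fin 2 → Mon s → ι → ℤ) (x : Fin s → 𝓞 K) (i : Fin 2) (m : ι) :
    qc ω Q (fun p l => ((c i p l : ℤ) : ZMod Q)) x m =
      ((ω.repr (qf (ec ω c i) x) m : ℤ) : ZMod Q) := by
  have h : ω.repr (qf (ec ω c i) x) m =
      ∑ p, ∑ l, c i p l * ω.repr (nu x p * ω l) m := by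
    unfold qf
    rw [map_sum, Finsupp.finsetSum_apply]
    refine Finset.sum_congr rfl fun p _ => ?_
    exact el_mul_repr ω (c i p) (nu x p) m
  rw [h]
  unfold qc
  push_cast
  rfl

private theorem qf_size {s A : ℕ} {B C : ℝ} (ω : Module.Basis ι ℤ (𝓞 K)) (hC : 1 ≤ C)
    (h2 : ∀ (v : ι → ℤ) (X : ℝ), (∀ l, |(v l : ℝ)| ≤ X) →
      ∀ w : InfinitePlace K, w (el ω v : K) ≤ C * X)
    (c : Fin 2 → Mon s → ι → ℤ) (x : Fin s → 𝓞 K) (hc : c ∈ Pool.Agent.H32.RK.bx ι s A)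
    (hx : Bd B x) (i : Fin 2) (w : InfinitePlace K) :
    w (qf (ec ω c i) x : 𝓞 K) ≤ md s * (C * A * B ^ 2) := by
  have hterm : ∀ p : Mon s, w ((ec ω c i p * (x p.1.1 * x p.1.2) : 𝓞 K) : K) ≤ C * A * B ^ 2 := by
    intro p
    have e1 : w ((ec ω c i p : 𝓞 K) : K) ≤ C * A := by
      refine h2 (c i p) A (fun l => ?_) w
      exact_mod_cast coef_le hc i p l
    have e2 := hx p.1.1 w
    have e3 := hx p.1.2 w
    have n1 : 0 ≤ w ((x p.1.1 : 𝓞 K) : K) := apply_nonneg w _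
    have n2 : 0 ≤ w ((x p.1.2 : 𝓞 K) : K) := apply_nonneg w _
    have n3 : 0 ≤ w ((ec ω c i p : 𝓞 K) : K) := apply_nonneg w _
    have hB : 0 ≤ B := n1.trans e2
    have hCA : 0 ≤ C * (A : ℝ) := by positivity
    have hm : ((ec ω c i p * (x p.1.1 * x p.1.2) : 𝓞 K) : K) =
        (ec ω c i p : K) * ((x p.1.1 : K) * (x p.1.2 : K)) := by
      push_cast
      rfl
    rw [hm, map_mul, map_mul]
    calc w (ec ω c i p : K) * (w (x p.1.1 : K) * w (x p.1.2 : K)) ≤ (C * A) * (B * B) :=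
          mul_le_mul e1 (mul_le_mul e2 e3 n2 hB) (mul_nonneg n1 n2) hCA
      _ = C * A * B ^ 2 := by ring
  have hs : ((qf (ec ω c i) x : 𝓞 K) : K) =
      ∑ p, ((ec ω c i p * (x p.1.1 * x p.1.2) : 𝓞 K) : K) := by
    unfold qf
    exact map_sum (algebraMap (𝓞 K) K) _ _
  rw [hs]
  refine (AbsoluteValue.sum_le w.1 _ _).trans ?_
  refine (Finset.sum_le_sum fun p _ => hterm p).trans (le_of_eq ?_)
  rw [Finset.sum_const, Finset.card_univ, nsmul_eq_mul]

private theorem cast_inj {s A Q : ℕ} (h : 2 * A < Q) (c c' : Fin 2 → Mon s → ι → ℤ)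
    (hc : c ∈ Pool.Agent.H32.RK.bx ι s A) (hc' : c' ∈ Pool.Agent.H32.RK.bx ι s A)
    (he : (fun i p l => ((c i p l : ℤ) : ZMod Q)) = fun i p l => ((c' i p l : ℤ) : ZMod Q)) :
    c = c' := by
  funext i p l
  have h1 : ((c i p l : ℤ) : ZMod Q) = ((c' i p l : ℤ) : ZMod Q) :=
    congrFun (congrFun (congrFun he i) p) l
  have h2 : ((c i p l - c' i p l : ℤ) : ZMod Q) = 0 := by
    push_cast
    rw [h1, sub_self]
  have h3 : (Q : ℤ) ∣ c i p l - c' i p l := (ZMod.intCast_zmod_eq_zero_iff_dvd _ Q).1 h2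
  have h4 : |c i p l - c' i p l| < (Q : ℤ) := by
    have a1 := coef_le hc i p l
    have a2 := coef_le hc' i p l
    have a3 := abs_sub (c i p l) (c' i p l)
    have a4 : 2 * (A : ℤ) < Q := by exact_mod_cast h
    linarith
  have h5 := Int.eq_zero_of_abs_lt_dvd h3 h4
  linarith

private theorem ww_ge (hFJB : T_FJB) {s A J Q : ℕ} [NeZero Q] (hJ : 1 ≤ J) (hQ : Q = 2 * A * J)
    (c : Fin 2 → Mon s → ι → ℤ) (hc : c ∈ Pool.Agent.H32.RK.bx ι s A) :
    ((4 : ℝ) / 10) ^ (2 * md s * Fintype.card ι) ≤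
      Pool.Agent.H32.RK.ww Q J (fun i p l => ((c i p l : ℤ) : ZMod Q)) := by
  have h1 : ∀ (i : Fin 2) (p : Mon s) (l : ι), (4 : ℝ) / 10 ≤ fj Q J ((c i p l : ℤ) : ZMod Q) := by
    intro i p l
    apply (hFJB Q J hJ).2.2
    have a1 := coef_le hc i p l
    have a2 : (0 : ℤ) ≤ 2 * (J : ℤ) := by positivity
    calc 2 * (J : ℤ) * |c i p l| ≤ 2 * (J : ℤ) * A := mul_le_mul_of_nonneg_left a1 a2
      _ = Q := by rw [hQ]; push_cast; ring
  unfold Pool.Agent.H32.RK.ww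
  have h2 : ∏ _i : Fin 2, ∏ _p : Mon s, ∏ _l : ι, ((4 : ℝ) / 10) =
      ((4 : ℝ) / 10) ^ (2 * md s * Fintype.card ι) := by
    rw [Finset.prod_const, Finset.prod_const, Finset.prod_const, Finset.card_univ,
      Finset.card_univ, Finset.card_univ, ← pow_mul, ← pow_mul, Fintype.card_fin]
    congr 1
    ring
  rw [← h2]
  refine Finset.prod_le_prod (fun i _ => Finset.prod_nonneg fun p _ =>
    Finset.prod_nonneg fun l _ => by norm_num) fun i _ => ?_
  refine Finset.prod_le_prod (fun p _ => Finset.prod_nonneg fun l _ => by norm_num) fun p _ => ?_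
  exact Finset.prod_le_prod (fun l _ => by norm_num) fun l _ => h1 i p l

private theorem lam_nonneg (hFJB : T_FJB) {Q W T : ℕ} [NeZero Q] (hQT : 1 ≤ Q / T)
    (v : ZMod Q) : 0 ≤ lam Q W T v := by
  unfold lam
  split_ifs
  · have := ((hFJB Q (Q / T) hQT).1 v).1
    positivity
  · exact le_rfl

private theorem lam_ge (hFJB : T_FJB) {Q W T : ℕ} [NeZero Q] (hQT : 1 ≤ Q / T) (hW : W ∣ Q)
    (hT : T ∣ Q) (z : ℤ) (h1 : (W : ℤ) ∣ z) (h2 : 2 * |z| ≤ T) :
    (W : ℝ) / T * (4 / 10) ≤ lam Q W T (z : ZMod Q) := by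
  have h3 : W ∣ (z : ZMod Q).val := by
    have e1 : (((z : ZMod Q).val : ℕ) : ℤ) = z % Q := ZMod.val_intCast z
    have e2 : (W : ℤ) ∣ (((z : ZMod Q).val : ℕ) : ℤ) := by
      rw [e1]
      exact (EuclideanDomain.dvd_mod_iff (by exact_mod_cast hW)).2 h1
    exact_mod_cast e2
  unfold lam
  rw [if_pos h3]
  apply mul_le_mul_of_nonneg_left _ (by positivity)
  apply (hFJB Q (Q / T) hQT).2.2
  have e3 : ((Q / T : ℕ) : ℤ) * (T : ℤ) = Q := by
    exact_mod_cast Nat.div_mul_cancel hT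
  calc 2 * ((Q / T : ℕ) : ℤ) * |z| = ((Q / T : ℕ) : ℤ) * (2 * |z|) := by ring
    _ ≤ ((Q / T : ℕ) : ℤ) * T := mul_le_mul_of_nonneg_left h2 (Nat.cast_nonneg _)
    _ = Q := e3

end

theorem pf_TRF (K : Type) [Field K] [NumberField K] (hCMP : T_CMP K) :
    Pool.Agent.H32.RK.T_TRF K := by
  classical
  have hFJB : T_FJB := Pool.Agent.H49.RQ.pf_FJB
  intro ι _ _ ω
  obtain ⟨-, C₁, hC₁, hc1, hc2⟩ := hCMP ι ω
  refine ⟨C₁ ^ 2, by nlinarith, ?_⟩
  intro s A J Q W T _ B S E M₀ hA hJ hQ hW hWQ hTQ hWT h2A hB hS hE hM0 hmain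
  have hQpos : 0 < Q := Nat.pos_of_ne_zero (NeZero.ne Q)
  have hTpos : 0 < T := Nat.pos_of_dvd_of_pos hTQ hQpos
  have hQT : 1 ≤ Q / T := Nat.div_pos (Nat.le_of_dvd hQpos hTQ) hTpos
  have hnn : ∀ F : Fin 2 → Mon s → ι → ZMod Q,
      0 ≤ Pool.Agent.H32.RK.ww Q J F *
        (Pool.Agent.H32.RK.nn ω Q S F - Pool.Agent.H32.RK.nl ω Q W T S F) ^ 2 := by
    intro F
    apply mul_nonneg _ (sq_nonneg _)
    unfold Pool.Agent.H32.RK.ww
    exact Finset.prod_nonneg fun i _ => Finset.prod_nonneg fun p _ =>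
      Finset.prod_nonneg fun l _ => ((hFJB Q J hJ).1 _).1
  obtain ⟨cc, hcc⟩ : ∃ cc : (Fin 2 → Mon s → ι → ℤ) → Fin 2 → Mon s → ι → ZMod Q,
      ∀ c, cc c = fun i p l => ((c i p l : ℤ) : ZMod Q) := ⟨_, fun _ => rfl⟩
  have hqc : ∀ (c : Fin 2 → Mon s → ι → ℤ) (i : Fin 2) (x : Fin s → 𝓞 K) (m : ι),
      qc ω Q (cc c i) x m = ((ω.repr (qf (ec ω c i) x) m : ℤ) : ZMod Q) := by
    intro c i x m
    rw [hcc]
    exact qc_cast ω Q c x i m
  have hterm : ∀ c ∈ E, ((4 : ℝ) / 10) ^ (2 * md s * Fintype.card ι) *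
      (((W : ℝ) / T) ^ (2 * Fintype.card ι) * (4 / 10) ^ (2 * Fintype.card ι) * M₀) ^ 2 ≤
      Pool.Agent.H32.RK.ww Q J (cc c) * (Pool.Agent.H32.RK.nn ω Q S (cc c) -
        Pool.Agent.H32.RK.nl ω Q W T S (cc c)) ^ 2 := by
    intro c hc
    have hcb : c ∈ Pool.Agent.H32.RK.bx ι s A := hE hc
    obtain ⟨m1, m2⟩ := hmain c hc
    have hww := ww_ge hFJB hJ hQ c hcb
    rw [← hcc] at hww
    have hn0 : Pool.Agent.H32.RK.nn ω Q S (cc c) = 0 := by
      unfold Pool.Agent.H32.RK.nn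
      apply Finset.sum_eq_zero
      intro x hx
      rw [if_neg]
      intro hcon
      obtain ⟨i, hi⟩ := m1 x hx
      apply hi
      have e0 : ω.repr (qf (ec ω c i) x) = 0 := by
        ext m
        have e1 := hcon i m
        rw [hqc] at e1
        have e2 : (Q : ℤ) ∣ ω.repr (qf (ec ω c i) x) m :=
          (ZMod.intCast_zmod_eq_zero_iff_dvd _ Q).1 e1
        refine Int.eq_zero_of_abs_lt_dvd e2 ?_
        have e3 := hc1 (qf (ec ω c i) x) (md s * (C₁ * A * B ^ 2))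
          (fun w => qf_size ω hC₁ hc2 c x hcb (hS x hx) i w) m
        have e4 : |((ω.repr (qf (ec ω c i) x) m : ℤ) : ℝ)| < (Q : ℝ) := by
          refine lt_of_le_of_lt e3 (lt_of_le_of_lt (le_of_eq ?_) hB)
          ring
        exact_mod_cast e4
      exact (LinearEquiv.map_eq_zero_iff ω.repr).1 e0
    have hl : ((W : ℝ) / T) ^ (2 * Fintype.card ι) * (4 / 10) ^ (2 * Fintype.card ι) * M₀ ≤
        Pool.Agent.H32.RK.nl ω Q W T S (cc c) := by
      unfold Pool.Agent.H32.RK.nl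
      have hnn2 : ∀ x ∈ S, 0 ≤ ∏ i, ∏ m, lam Q W T (qc ω Q (cc c i) x m) :=
        fun x _ => Finset.prod_nonneg fun i _ => Finset.prod_nonneg fun m _ =>
          lam_nonneg hFJB hQT _
      calc ((W : ℝ) / T) ^ (2 * Fintype.card ι) * (4 / 10) ^ (2 * Fintype.card ι) * M₀ ≤
            ((W : ℝ) / T) ^ (2 * Fintype.card ι) * (4 / 10) ^ (2 * Fintype.card ι) *
            ((S.filter fun x => ∀ i m, (W : ℤ) ∣ ω.repr (qf (ec ω c i) x) m ∧
              2 * |ω.repr (qf (ec ω c i) x) m| ≤ T).card : ℝ) :=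
            mul_le_mul_of_nonneg_left m2 (by positivity)
        _ = ∑ x ∈ S.filter fun x => ∀ i m, (W : ℤ) ∣ ω.repr (qf (ec ω c i) x) m ∧
              2 * |ω.repr (qf (ec ω c i) x) m| ≤ T,
            ∏ _i : Fin 2, ∏ _m : ι, ((W : ℝ) / T * (4 / 10)) := by
            rw [Finset.sum_const, nsmul_eq_mul, Finset.prod_const, Finset.prod_const,
              Finset.card_univ, Finset.card_univ, Fintype.card_fin, ← pow_mul,
              mul_comm (Fintype.card ι) 2, mul_pow]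
            ring
        _ ≤ ∑ x ∈ S.filter fun x => ∀ i m, (W : ℤ) ∣ ω.repr (qf (ec ω c i) x) m ∧
              2 * |ω.repr (qf (ec ω c i) x) m| ≤ T,
            ∏ i, ∏ m, lam Q W T (qc ω Q (cc c i) x m) := by
            apply Finset.sum_le_sum
            intro x hx
            rw [Finset.mem_filter] at hx
            refine Finset.prod_le_prod (fun i _ => Finset.prod_nonneg fun m _ => by positivity)
              fun i _ => ?_
            refine Finset.prod_le_prod (fun m _ => by positivity) fun m _ => ?_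
            rw [hqc]
            exact lam_ge hFJB hQT hWQ hTQ _ (hx.2 i m).1 (hx.2 i m).2
        _ ≤ _ := Finset.sum_le_sum_of_subset_of_nonneg (Finset.filter_subset _ _)
            (fun x hx _ => hnn2 x hx)
    have hl0 : 0 ≤ ((W : ℝ) / T) ^ (2 * Fintype.card ι) * (4 / 10) ^ (2 * Fintype.card ι) * M₀ := by
      positivity
    rw [hn0, zero_sub, neg_sq]
    apply mul_le_mul hww (pow_le_pow_left₀ hl0 hl 2) (sq_nonneg _)
    exact le_trans (by positivity) hww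
  calc (E.card : ℝ) * ((4 / 10) ^ (2 * md s * Fintype.card ι) *
        (((W : ℝ) / T) ^ (2 * Fintype.card ι) * (4 / 10) ^ (2 * Fintype.card ι) * M₀) ^ 2) =
      ∑ _c ∈ E, ((4 : ℝ) / 10) ^ (2 * md s * Fintype.card ι) *
        (((W : ℝ) / T) ^ (2 * Fintype.card ι) * (4 / 10) ^ (2 * Fintype.card ι) * M₀) ^ 2 := by
        rw [Finset.sum_const, nsmul_eq_mul]
    _ ≤ ∑ c ∈ E, Pool.Agent.H32.RK.ww Q J (cc c) * (Pool.Agent.H32.RK.nn ω Q S (cc c) -
          Pool.Agent.H32.RK.nl ω Q W T S (cc c)) ^ 2 := Finset.sum_le_sum hterm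
    _ = ∑ F ∈ E.image cc, Pool.Agent.H32.RK.ww Q J F * (Pool.Agent.H32.RK.nn ω Q S F -
          Pool.Agent.H32.RK.nl ω Q W T S F) ^ 2 := by
        rw [Finset.sum_image]
        intro c hc c' hc' he
        rw [hcc, hcc] at he
        exact cast_inj h2A c c' (hE hc) (hE hc') he
    _ ≤ _ := Finset.sum_le_sum_of_subset_of_nonneg (Finset.subset_univ _) (fun F _ _ => hnn F)

end Pool.Agent.H99.RK
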